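import Pool.Agent.X309.BB1
import Pool.Agent.Y683.Cent
import Pool.Agent.W765.HK.Pair
import Pool.Agent.W216.CY.Div
import Pool.Agent.W287.HK.Basic
import Pool.Agent.W571.HK.Cls
import Pool.Agent.W53.HK.Fp
import Pool.Agent.W366.HK.Fpr
import Pool.Agent.W585.HK.LAT
import Pool.Agent.W692.HK.Ker
import Pool.Agent.W584.HK.CNT
import Pool.Agent.W513.HK.Divr
import Pool.Agent.W822.HK.MU
import Pool.Agent.W240.HK.Count
import Pool.Agent.W856.HK.Dec
import Pool.Agent.W636.HK.Gauss
import Pool.Agent.W348.HK.Pois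

/-!
# Beilinson–Bloch over cyclic extensions: almost all characters, all varieties and all codimensions

Let `R` be the ring of integers of an imaginary quadratic field `K` of any class number.  We consider
the smooth projective varieties `X` over `K` and the `m ≥ 1` for which the Galois representation
`H^(2m-1)(X)` is a direct sum of Hecke characters `ψ j` of `K`; their types are `(a j, b j)` with
`a j + b j = 2 m - 1` (the Hodge types).  Examples are all products of elliptic curves with complex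
multiplication by orders of `K`, and everything cut out by correspondences in them.

Let `F / K` be a finite cyclic extension and let `χ` be a faithful character of its Galois group, by
class field theory a primitive character of finite order of the ideals of `R`.  The representation
`H^(2m-1)(X_F)` of `Gal(Kbar / K)` (induced from `F`) is the direct sum of the twists of `H^(2m-1)(X)`
by the characters of `Gal(F / K)`, and `CH^m(X_F)_hom ⊗ ℂ` is the direct sum of its isotypic
components.  The characters `σ χ`, where `σ` runs through the embeddings `ℂ → ℂ`, are the faithful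
ones; they belong to the part of `CH^m(X_F)_hom ⊗ ℚ` and of `H^(2m-1)(X_F)` that does not come from the
proper subextensions of `F / K`, the new part.

Theorem: for all but a proportion `C exp(-c (log T)^(1/3))` of the characters `χ` with a conductor of
norm at most `T`, **all** the functions `L(H^(2m-1)(X) ⊗ σ χ, s)` are entire and not zero at the
centre `s = m`, simultaneously for all `σ`, all `m ≥ 1` and all `X` such that the `ψ j` have conductors
of norm at most `T ^ (η / 16)` and types with `|a j - b j| ≤ T ^ (1 - η)`.  For all these `F`, `X` and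
`m` the Beilinson–Bloch conjecture predicts that the new part of `CH^m(X_F)_hom` is zero: the rank of
`CH^m(X_F)_hom` comes from the proper subextensions of `F / K`.

The input is the library theorem `sw_main` (nonvanishing for the characters of large order, by an
average over the Galois conjugates, and a count of the characters of small order) for type `(n, 0)`.
-/

set_option autoImplicit false

open Complex IsDedekindDomain

namespace Pool.Agent.Results.MP_b8021b_nt.AlmostAllTwists

/-- The norm `N(I)` of an ideal (`0` for the zero ideal, whose residue ring is infinite). -/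
noncomputable def norm {R : Subring ℂ} (I : Ideal R) : ℝ := (Nat.card (R ⧸ I) : ℝ)

/-- `θ`, a function on the ideals of `R`, is a primitive Hecke character of conductor `q` and infinity
type `(a, b)`: it is multiplicative, vanishes exactly at the zero ideal and the ideals not prime to
`q`, satisfies `θ((α)) = α ^ a * conj α ^ b` for `α ≡ 1 mod q`, and this fails for every strictly
larger ideal `q'` in place of `q`.  For `a = b = 0` these are the primitive characters of finite
order. -/
structure IsHecke {R : Subring ℂ} (a b : ℕ) (q : Ideal R) (θ : Ideal R → ℂ) : Prop where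
  ne_bot : q ≠ ⊥
  mul : ∀ I J : Ideal R, θ (I * J) = θ I * θ J
  eq_zero : ∀ I : Ideal R, θ I = 0 ↔ (I = ⊥ ∨ ¬ IsCoprime I q)
  principal : ∀ α : R, α ≠ 0 → α - 1 ∈ q →
    θ (Ideal.span {α}) = (α : ℂ) ^ a * (starRingEnd ℂ) (α : ℂ) ^ b
  primitive : ∀ q' : Ideal R, q < q' → ∃ α : R, α ≠ 0 ∧ α - 1 ∈ q' ∧ IsCoprime (Ideal.span {α}) q ∧
    θ (Ideal.span {α}) ≠ (α : ℂ) ^ a * (starRingEnd ℂ) (α : ℂ) ^ b

/-- All primitive characters `χ` of finite order whose conductor has norm at most `T`. -/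
def Characters (R : Subring ℂ) (T : ℕ) : Set (Ideal R → ℂ) :=
  {χ | ∃ c : Ideal R, IsHecke 0 0 c χ ∧ norm c ≤ T}

/-- For the direct sum `V` of the Hecke characters `ψ 1, …, ψ n` of types `(a j, b j)` with
`a j + b j = 2 m - 1`: the primitive Hecke characters `θ j` of `ψ j * χ` exist, and the `L`-function
of their direct sum `V ⊗ χ`, the Euler product of all `(1 - θ j(P) N(P)^(-s))⁻¹` for
`Re s > m + 1/2`, extends to an entire function `L` with `L(m) ≠ 0`. -/
def Nonvanishing {R : Subring ℂ} (m n : ℕ) (a b : Fin n → ℕ) (ψ : Fin n → Ideal R → ℂ)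
    (χ : Ideal R → ℂ) : Prop :=
  ∃ (θ : Fin n → Ideal R → ℂ) (L : ℂ → ℂ),
    (∀ j, (∃ q : Ideal R, IsHecke (a j) (b j) q (θ j)) ∧
      ∀ I : Ideal R, ψ j I * χ I ≠ 0 → θ j I = ψ j I * χ I) ∧
    Differentiable ℂ L ∧
    (∀ s : ℂ, (m : ℝ) + 1 / 2 < s.re → HasProd (fun P : HeightOneSpectrum R =>
      ∏ j, (1 - θ j P.asIdeal * (norm P.asIdeal : ℂ) ^ (-s))⁻¹) (L s)) ∧
    L m ≠ 0

/-- `χ` is good: for all `m ≥ 1`, all direct sums of Hecke characters `ψ j` of types `(a j, b j)` with
`a j + b j = 2 m - 1`, `|a j - b j| ≤ T ^ (1 - η)` and conductors of norm at most `T ^ (η / 16)`, and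
all conjugates `σ χ` of `χ`, the `L`-function of the twist by `σ χ` is entire and not zero at the
centre `s = m`. -/
def Good (R : Subring ℂ) (η : ℝ) (T : ℕ) (χ : Ideal R → ℂ) : Prop :=
  ∀ (m n : ℕ) (a b : Fin n → ℕ) (f : Fin n → Ideal R) (ψ : Fin n → Ideal R → ℂ), 1 ≤ m →
    (∀ j, IsHecke (a j) (b j) (f j) (ψ j) ∧ a j + b j = 2 * m - 1 ∧
      |(a j : ℝ) - b j| ≤ (T : ℝ) ^ (1 - η) ∧ norm (f j) ≤ (T : ℝ) ^ (η / 16)) →
    ∀ σ : ℂ →+* ℂ, Nonvanishing m n a b ψ (fun I => σ (χ I))

theorem isHecke_iff {R : Subring ℂ} (a b : ℕ) (f : Ideal R) (ψ : Ideal R → ℂ) :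
    IsHecke a b f ψ ↔ Pool.Agent.X309.HT a b f ψ :=
  ⟨fun h => ⟨h.ne_bot, h.mul, h.eq_zero, h.principal, h.primitive⟩,
    fun h => ⟨h.ne, h.mul, h.zero, h.princ, h.prim⟩⟩

theorem isHecke_zero {R : Subring ℂ} (f : Ideal R) (ψ : Ideal R → ℂ) :
    IsHecke 0 0 f ψ ↔ Pool.Agent.W192.HK.HC 0 f ψ := by
  constructor
  · intro h
    refine ⟨h.ne_bot, h.mul, h.eq_zero, fun α h1 h2 => ?_, fun q' h1 => ?_⟩
    · rw [h.principal α h1 h2, pow_zero, pow_zero, mul_one]
    · obtain ⟨α, h2, h3, h4, h5⟩ := h.primitive q' h1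
      refine ⟨α, h2, h3, h4, ?_⟩
      rwa [pow_zero, pow_zero, mul_one, ← pow_zero (α : ℂ)] at h5
  · intro h
    refine ⟨h.ne, h.mul, h.zero, fun α h1 h2 => ?_, fun q' h1 => ?_⟩
    · rw [h.princ α h1 h2, pow_zero, pow_zero, mul_one]
    · obtain ⟨α, h2, h3, h4, h5⟩ := h.prim q' h1
      refine ⟨α, h2, h3, h4, ?_⟩
      rwa [pow_zero, pow_zero, mul_one, ← pow_zero (α : ℂ)]

/-- **Main theorem.** Let `R = ℤ + ℤ ω` be a subring of `ℂ` that is a lattice and a Dedekind domain,
and `0 < η ≤ 1`.  There are finitely many primitive characters `χ` of finite order with a conductor of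
norm at most `T`, at least `c (T / log T)²` for large `T`.  There are `C`, `c > 0` such that for all
`T ≥ 1` all these `χ` are good, with at most `C exp(-c (log T)^(1/3)) * #Characters R T`
exceptions. -/
theorem result (R : Subring ℂ) (ω : ℂ) (hω : 0 < ω.im)
    (hR : ∀ z : ℂ, z ∈ R ↔ ∃ x y : ℤ, z = x + y * ω) (hded : IsDedekindDomain R)
    (η : ℝ) (hη : 0 < η) (hη1 : η ≤ 1) :
    (∀ T : ℕ, (Characters R T).Finite) ∧
    (∃ c T₀ : ℝ, 0 < c ∧ ∀ T : ℕ, T₀ ≤ T →
      c * ((T : ℝ) / Real.log T) ^ 2 ≤ (Characters R T).ncard) ∧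
    ∃ C c : ℝ, 0 < C ∧ 0 < c ∧ ∀ T : ℕ, 1 ≤ T →
      ({χ ∈ Characters R T | ¬ Good R η T χ}.ncard : ℝ) ≤
        C * Real.exp (-c * (Real.log T) ^ ((1 : ℝ) / 3)) * (Characters R T).ncard := by
  classical
  have hbasic := Pool.Agent.W287.HK.h_basic
  have hcls := Pool.Agent.W571.HK.h_cls hbasic
  have hfp := Pool.Agent.W53.HK.h_fp hbasic hcls
  have hfpr := Pool.Agent.W366.HK.h_fpr hbasic hcls
  have hlat := Pool.Agent.W585.HK.h_lat hbasic
  have hker := Pool.Agent.W692.HK.h_ker hbasic hcls hfpr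
  have hcnt := Pool.Agent.W584.HK.h_cnt hbasic hcls hfpr hlat hker
  have hdivr := Pool.Agent.W513.HK.h_divr hbasic
  have hmu := Pool.Agent.W822.HK.h_mu hbasic
  have hcount := Pool.Agent.W240.HK.h_count hbasic hcnt hdivr
  have hdiv := Pool.Agent.W216.CY.t_div
  have hdec := Pool.Agent.W856.HK.h_dec hbasic
  have hgauss := Pool.Agent.W636.HK.h_gauss hbasic hfp
  have hpois := Pool.Agent.W348.HK.h_pois hbasic
  have htheta := Pool.Agent.TH936.HK.h_theta hbasic hfp hdec hgauss hpois hcnt
  have hafe := Pool.Agent.TH936.HK.h_afe hbasic hfp hcnt hgauss htheta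
  have htail := Pool.Agent.Y683.tailz hbasic hcnt hcount
  have hmain := Pool.Agent.Y683.mainb hbasic hcnt hdivr htail
  have hdual := Pool.Agent.Y683.dualb hdiv hbasic hcnt hker hfpr
  have hfin := Pool.Agent.Y683.finb hdiv hbasic hcnt hmu hmain hdual
  have hQ : Pool.Agent.W192.HK.QR R ω := ⟨hω, hR, hded⟩
  obtain ⟨C0, hC⟩ := Pool.Agent.Y683.AA.exists_idCount hbasic hcnt hQ
  obtain ⟨L0, hL0, K, ho⟩ := Pool.Agent.Y683.AA.exists_L hbasic hcls hcnt hfpr hfp hdec hgauss
    htheta hafe hfin hQ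
  have hchar : ∀ X : ℕ, Characters R X = Pool.Agent.Y683.AA.Hk R 0 X := by
    intro X
    ext θ
    constructor
    · rintro ⟨q, h1, h2⟩
      refine ⟨q, (isHecke_zero _ _).1 h1, ?_⟩
      have : ((Nat.card (R ⧸ q) : ℕ) : ℝ) ≤ X := h2
      exact_mod_cast this
    · rintro ⟨q, h1, h2⟩
      refine ⟨q, (isHecke_zero _ _).2 h1, ?_⟩
      change ((Nat.card (R ⧸ q) : ℕ) : ℝ) ≤ X
      exact_mod_cast h2
  have hfinC : ∀ X : ℕ, (Characters R X).Finite := fun X => by
    rw [hchar]
    exact Pool.Agent.Y683.AA.hk_finite hbasic hcls hfp hQ hC 0 X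
  refine ⟨hfinC, ?_, ?_⟩
  · obtain ⟨c, X0, hc, hX0, h1⟩ := Pool.Agent.Y683.AA.hk_lower hbasic hcls hfp hQ hC
    refine ⟨c / 9, max X0 3, by positivity, fun X hX => ?_⟩
    have h2 := h1 0 X ((le_max_left _ _).trans hX)
    rw [hchar]
    have h3 : (3 : ℝ) ≤ X := (le_max_right _ _).trans hX
    have hlog : 1 ≤ Real.log X := by
      rw [Real.le_log_iff_exp_le (by linarith)]
      have := Real.exp_one_lt_d9
      linarith
    rw [div_pow, ← mul_div_assoc, div_le_iff₀ (by positivity)]
    have h4 : (1 + 2 * Real.log X) ^ 2 ≤ 9 * (Real.log X) ^ 2 := by nlinarith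
    have h5 := mul_le_mul_of_nonneg_left h4
      (Nat.cast_nonneg (α := ℝ) (Pool.Agent.Y683.AA.Hk R 0 X).ncard)
    linarith
  · obtain ⟨C, c, hC1, hc1, h1⟩ := Pool.Agent.Y683.AA.sw_main hbasic hcls hfp hdivr hQ hC ho hη hη1
    refine ⟨C, c, hC1, hc1, fun X hX => ?_⟩
    have h2 := h1 X hX
    rw [← hchar] at h2
    refine le_trans ((Nat.cast_le (α := ℝ)).2 (Set.ncard_le_ncard ?_ ?_)) h2
    · rintro χ ⟨hχ, hbad⟩
      by_contra hnb
      apply hbad
      obtain ⟨c', hχ1, hχ2⟩ := hχ
      have hχ3 := (isHecke_zero _ _).1 hχ1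
      have hok : Pool.Agent.X309.Ok R
          (fun m θ => analyticOrderNatAt (L0 m θ) (m : ℂ)) ((X : ℝ) ^ (1 - η))
          ((X : ℝ) ^ (η / 16)) χ := by
        intro σ m f q ψ θ k1 k2 k3 k4 k5 k6
        by_contra k7
        refine hnb ⟨?_, σ, m, f, q, ψ, θ, k1, k2, k3, k4, k5, k6, k7⟩
        rw [← hchar]
        exact ⟨c', hχ1, hχ2⟩
      intro m n a b f ψ hm hψ σ
      have hs := fun j => Pool.Agent.X309.single hbasic hcls hQ hL0 hχ3 hok σ
        ((isHecke_iff _ _ _ _).1 (hψ j).1) (hψ j).2.1 hm (hψ j).2.2.1 (hψ j).2.2.2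
      choose q θ h3 h4 L h5 h6 h7 using hs
      refine ⟨θ, fun s => ∏ j, L j s, fun j => ⟨⟨q j, (isHecke_iff _ _ _ _).2 (h3 j)⟩, h4 j⟩,
        ?_, fun s hs => ?_, ?_⟩
      · exact Differentiable.fun_finsetProd fun i _ => h5 i
      · exact hasProd_prod fun i _ => Pool.Agent.X309.euler hbasic hQ (h3 i) s _ (h6 i s hs)
      · exact Finset.prod_ne_zero_iff.mpr fun i _ => h7 i
    · refine (hfinC X).subset ?_
      rintro χ ⟨h3, -⟩
      rw [hchar]
      exact h3

end Pool.Agent.Results.MP_b8021b_nt.AlmostAllTwists
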