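import Pool.Agent.X218.BB.Conv
import Pool.Agent.X218.BB.Real
import Pool.Agent.TH942.ES.NF

/-!
# Continuation and order of the `L`-function of `H^{2m-1}` from finite sums of traces of Frobenius

`K` is any number field and `T` a set of finite places.  Let `α_{v,1}, …, α_{v,d}` be, for each `v ∈ T`,
the roots of the local factor of an `L`-function of odd weight `2m - 1`:

`L(s) = ∏_{v ∈ T} ∏_i (1 - α_{v,i} q_v^{-s})⁻¹`,  `|α_{v,i}| ≤ q_v^{m - 1/2}`,  `∑_i α_{v,i}^k ∈ ℝ`.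

For `V = H^{2m-1}(X)`, `X` smooth projective over `K`, the `α_{v,i}` are the eigenvalues of the geometric
Frobenius on `V^{I_v}` (and zeros, to have `d` of them); the bound is the theorem of Deligne for the `v` of
good reduction, and the power sums are the traces `Tr(Frob_v^k | V)`.

In the conjecture of Beilinson and Bloch the order of `L` at `s = m` makes sense only if `L` has a
continuation, which is not known in general.  Here NOTHING is assumed about the continuation.  For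
`ρ' > ρ > 1` let

`S_{ρ,ρ'}(Y) = ∑ w_{1/ρ}(k log q_v / log Y) Tr(Frob_v^k | V) / (k q_v^{mk})`,

the FINITE sum over the pairs `(v, k)`, `v ∈ T`, `k ≥ 1`, with `q_v^k ≤ exp((log Y)^ρ')`, where `w_α` is the
Mittag-Leffler weight `w_α(u) = (2π)⁻¹ ∫ Re (exp(z - u z^α) / z) dt`, `z = 1 + i t`.

Theorem.  Let `r ≥ 0` be an integer and `ρ₀ ≥ 1`.

* `S_{ρ,ρ'}(Y) + r log log Y` converges for all `ρ' > ρ > ρ₀` (to any limits) if and only if `L` has a
  continuation `G` which is holomorphic and without zeros in the union of `Re s > m + 1/2` and the sector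
  `|arg (s - m)| < π / (2 ρ₀)`, and `G(s) ∼ A (s - m)^r` for some `A > 0`, as `s → m` in every smaller
  sector.  The limits are then `log A - r γ / ρ`, and conversely these limits give this `A`.
* For a continuation `F` of `L` to `Re s > m` which is meromorphic at `s = m`: the sums
  `S_{ρ,ρ'}(Y) + r log log Y` converge for all `ρ' > ρ > 1` if and only if `F` has no zeros with
  `Re s > m` and the order `r` at `s = m`.

So (ii) of the conjecture of Beilinson and Bloch for `X` and `m`, together with the Riemann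
hypothesis for `L(H^{2m-1}(X), s)`, is the statement that the finite sums of traces
`S_{ρ,ρ'}(Y) + rank CH^m(X)_hom · log log Y` converge; and this statement makes sense, and implies the
continuation to `Re s > m` and the existence of the leading term at `s = m`, when no continuation is known.

For elliptic curves over `ℚ` such criteria for the order, with a sharp cut-off, are due to Goldfeld (1982),
Kuo and Murty, and Conrad (2005).
-/

set_option autoImplicit false

open IsDedekindDomain NumberField Filter Topology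

namespace Pool.Agent.Results.MP_b8021b_nt.ContinuationFromFiniteTraces

variable {K : Type} [Field K] [NumberField K] {d : ℕ}

/-- `q_v`, the number of elements of the residue field. -/
noncomputable def q (v : HeightOneSpectrum (𝓞 K)) : ℕ := Ideal.absNorm v.asIdeal

/-- Local roots of weight `≤ 2m - 1` at the places in `T` whose power sums (traces of Frobenius) are
real. -/
structure LocalRoots (T : Set (HeightOneSpectrum (𝓞 K))) (m : ℕ) (α : T → Fin d → ℂ) : Prop where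
  le : ∀ v i, ‖α v i‖ ≤ (q v.1 : ℝ) ^ ((m : ℝ) - 1 / 2)
  real : ∀ v (k : ℕ), (∑ i, α v i ^ k).im = 0

/-- The Mittag-Leffler weight `w_α(u) = (2π)⁻¹ ∫ Re (exp (z - u z^α) / z) dt`, `z = 1 + it`. -/
noncomputable def weight (α u : ℝ) : ℝ :=
  (2 * Real.pi)⁻¹ * ∫ t : ℝ, (Complex.exp ((1 + t * Complex.I) -
    u * (1 + t * Complex.I) ^ (α : ℂ)) / (1 + t * Complex.I)).re

/-- The pairs `(v, k)`, `v ∈ T` and `k = x.2 + 1`, with `q_v ^ k ≤ exp((log Y)^ρ')`. -/
def pairs (T : Set (HeightOneSpectrum (𝓞 K))) (ρ' Y : ℝ) : Set (T × ℕ) :=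
  {x | (q x.1.1 : ℝ) ^ (x.2 + 1) ≤ Real.exp (Real.log Y ^ ρ')}

/-- `S_{ρ,ρ'}(Y)`, the sum over the finite set `pairs`, with `k = x.2 + 1`. -/
noncomputable def S (T : Set (HeightOneSpectrum (𝓞 K))) (m : ℕ) (α : T → Fin d → ℂ)
    (ρ ρ' Y : ℝ) : ℝ :=
  ∑ᶠ x ∈ pairs T ρ' Y, weight ρ⁻¹ (((x.2 : ℝ) + 1) * Real.log (q x.1.1) / Real.log Y) *
    ((∑ i, α x.1 i ^ (x.2 + 1)).re / (((x.2 : ℝ) + 1) * (q x.1.1 : ℝ) ^ (m * (x.2 + 1))))

/-- `s` lies in the sector `|arg (s - m)| < π / (2ρ)`, `s ≠ m`; the half plane `Re s > m` for `ρ = 1`. -/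
def InSector (m : ℕ) (ρ : ℝ) (s : ℂ) : Prop := s ≠ m ∧ |Complex.arg (s - m)| < Real.pi / (2 * ρ)

/-- `G` is the Euler product `∏_{v ∈ T} ∏_i (1 - α_{v,i} q_v^(-s))⁻¹` for `Re s > m + 1/2`. -/
def IsLSeries (T : Set (HeightOneSpectrum (𝓞 K))) (m : ℕ) (α : T → Fin d → ℂ) (G : ℂ → ℂ) : Prop :=
  ∀ s : ℂ, (m : ℝ) + 1 / 2 < s.re →
    HasProd (fun v : T => ∏ i, (1 - α v i * (q v.1 : ℂ) ^ (-s))⁻¹) (G s)

/-- `G` is a continuation of the Euler product, holomorphic and without zeros in the union of the half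
plane `Re s > m + 1/2` and the sector `|arg (s - m)| < π / (2 ρ₀)`, and `G(s) / (s - m)^r → A` as `s → m` in
every smaller sector. -/
def IsContinuation (T : Set (HeightOneSpectrum (𝓞 K))) (m : ℕ) (α : T → Fin d → ℂ) (ρ₀ : ℝ) (r : ℕ)
    (A : ℝ) (G : ℂ → ℂ) : Prop :=
  IsLSeries T m α G ∧
    (∀ s : ℂ, InSector m ρ₀ s ∨ (m : ℝ) + 1 / 2 < s.re → DifferentiableAt ℂ G s ∧ G s ≠ 0) ∧
    ∀ ρ : ℝ, ρ₀ < ρ →
      Tendsto (fun s => G s / (s - m) ^ r) (𝓝[{s | InSector m ρ s}] (m : ℂ)) (𝓝 (A : ℂ))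

/-! ### Translation to the imported files -/

section aux

open Pool.Agent.TH942.ES Pool.Agent.TH942.SL
open Pool.Agent.H921R2.TatePole (nm two_le_nm)

variable {T : Set (HeightOneSpectrum (𝓞 K))} {m : ℕ} {α : T → Fin d → ℂ}

/-- the norms -/
noncomputable abbrev NN (T : Set (HeightOneSpectrum (𝓞 K))) : T → ℕ := fun v => nm v.1

theorem nm_pos (v : HeightOneSpectrum (𝓞 K)) : (0 : ℝ) < nm v := by
  have hp2 : (2 : ℝ) ≤ nm v := by exact_mod_cast two_le_nm v
  linarith

theorem sq_nm (v : HeightOneSpectrum (𝓞 K)) : ((√(nm v : ℝ) : ℝ) : ℂ) ^ 2 = nm v := by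
  rw [← Complex.ofReal_pow, Real.sq_sqrt (nm_pos v).le]
  push_cast
  rfl

theorem nmc_ne (v : HeightOneSpectrum (𝓞 K)) : (nm v : ℂ) ≠ 0 := by
  exact_mod_cast (nm_pos v).ne'

theorem sqrt_ne (v : HeightOneSpectrum (𝓞 K)) : ((√(nm v : ℝ) : ℝ) : ℂ) ≠ 0 := by
  exact_mod_cast (Real.sqrt_pos.2 (nm_pos v)).ne'

/-- the normalised local roots -/
noncomputable def al (T : Set (HeightOneSpectrum (𝓞 K))) (m : ℕ) (α : T → Fin d → ℂ) (v : T)
    (i : Fin d) : ℂ :=
  α v i * ((√(nm v.1 : ℝ) : ℝ) : ℂ) / (nm v.1 : ℂ) ^ m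

theorem zv_al (v : T) (i : Fin d) :
    zv (NN T) (al T m α) v i = α v i / (nm v.1 : ℂ) ^ m := by
  unfold zv al
  have := sqrt_ne v.1
  field_simp

theorem norm_al (hα : LocalRoots T m α) (v : T) (i : Fin d) : ‖al T m α v i‖ ≤ 1 := by
  have h1 := hα.le v i
  have h0 := nm_pos v.1
  have e0 : (q v.1 : ℝ) = (nm v.1 : ℝ) := rfl
  rw [e0] at h1
  unfold al
  rw [norm_div, norm_mul, norm_pow, Complex.norm_real, Real.norm_eq_abs,
    abs_of_nonneg (Real.sqrt_nonneg _), Complex.norm_natCast, div_le_one (by positivity)]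
  have h2 : (nm v.1 : ℝ) ^ ((m : ℝ) - 1 / 2) * √(nm v.1 : ℝ) = (nm v.1 : ℝ) ^ m := by
    rw [Real.sqrt_eq_rpow, ← Real.rpow_add h0, ← Real.rpow_natCast]
    congr 1
    ring
  rw [← h2]
  exact mul_le_mul_of_nonneg_right h1 (Real.sqrt_nonneg _)

theorem norm_z_lt (hα : LocalRoots T m α) (v : T) (i : Fin d) :
    ‖zv (NN T) (al T m α) v i‖ < 1 := by
  have h1 := norm_al hα v i
  have h0 := nm_pos v.1
  have hp2 : (2 : ℝ) ≤ nm v.1 := by exact_mod_cast two_le_nm v.1
  rw [zv, norm_div, Complex.norm_real, Real.norm_eq_abs, abs_of_nonneg (Real.sqrt_nonneg _),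
    div_lt_one (Real.sqrt_pos.2 h0)]
  refine lt_of_le_of_lt h1 ?_
  rw [Real.lt_sqrt (by norm_num)]
  linarith

theorem pow_eq (hα : LocalRoots T m α) (v : T) (n : ℕ) :
    ∑ i, zv (NN T) (al T m α) v i ^ n =
      (((∑ i, α v i ^ n).re / (q v.1 : ℝ) ^ (m * n) : ℝ) : ℂ) := by
  have h1 : ∀ i, zv (NN T) (al T m α) v i ^ n = α v i ^ n / (nm v.1 : ℂ) ^ (m * n) := fun i => by
    rw [zv_al, div_pow, pow_mul]
  rw [Finset.sum_congr rfl fun i _ => h1 i, ← Finset.sum_div]
  have h5 : (((∑ i, α v i ^ n).re : ℝ) : ℂ) = ∑ i, α v i ^ n :=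
    Complex.ext (by simp) (by rw [Complex.ofReal_im, hα.real v n])
  rw [Complex.ofReal_div, h5, Complex.ofReal_pow]
  rfl

theorem hreal (hα : LocalRoots T m α) (v : T) (k : ℕ) :
    (∑ i, zv (NN T) (al T m α) v i ^ k).im = 0 := by
  rw [pow_eq hα, Complex.ofReal_im]

theorem log_im (hα : LocalRoots T m α) (v : T) :
    (∑ i, Complex.log (1 - zv (NN T) (al T m α) v i)).im = 0 := by
  have h1 : HasSum (fun n : ℕ => ∑ i, zv (NN T) (al T m α) v i ^ n / n)
      (∑ i, -Complex.log (1 - zv (NN T) (al T m α) v i)) :=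
    hasSum_sum fun i _ => Complex.hasSum_taylorSeries_neg_log (norm_z_lt hα v i)
  have h2 := Complex.hasSum_im h1
  have h3 : ∀ n : ℕ, (∑ i, zv (NN T) (al T m α) v i ^ n / n).im = 0 := by
    intro n
    rw [← Finset.sum_div, Complex.div_natCast_im, hreal hα, zero_div]
  simp_rw [h3] at h2
  have h4 := h2.unique hasSum_zero
  rw [Finset.sum_neg_distrib, Complex.neg_im] at h4
  linarith

theorem sys (hα : LocalRoots T m α) : Sys (NN T) (al T m α) :=
  nf_sys (fun v => v ∈ T) (al T m α) (norm_al hα) fun v => log_im hα v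

theorem S_eq (hα : LocalRoots T m α) (ρ ρ' Y : ℝ) :
    S T m α ρ ρ' Y = StE (NN T) (al T m α) ρ ρ' Y := by
  unfold S StE
  refine finsum_congr fun x => ?_
  refine finsum_congr_Prop rfl fun _ => ?_
  have e1 : weight = wml := rfl
  rw [e1]
  congr 1
  unfold cP
  rw [pow_eq hα, Complex.ofReal_re]
  have hq : (q x.1.1 : ℝ) ≠ 0 := (nm_pos x.1.1).ne'
  field_simp

/-- the local factor -/
theorem factor_eq (v : T) (s : ℂ) :
    ∏ i, (1 - zv (NN T) (al T m α) v i * xv (NN T) v s)⁻¹ =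
      ∏ i, (1 - α v i * (q v.1 : ℂ) ^ (-(m + s)))⁻¹ := by
  refine Finset.prod_congr rfl fun i _ => ?_
  have h0 := nm_pos v.1
  have hnc := nmc_ne v.1
  have e1 : (q v.1 : ℂ) ^ (-(m + s)) = xv (NN T) v s / (nm v.1 : ℂ) ^ m := by
    have e0 : (q v.1 : ℂ) = (nm v.1 : ℂ) := rfl
    have e2 : (nm v.1 : ℂ) ^ (-(m + s)) = (nm v.1 : ℂ) ^ (-s) * (nm v.1 : ℂ) ^ (-(m : ℂ)) := by
      rw [← Complex.cpow_add _ _ hnc]
      congr 1
      ring
    rw [e0, e2, Complex.cpow_neg _ (m : ℂ), Complex.cpow_natCast, div_eq_mul_inv]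
    congr 1
    rw [Complex.cpow_def_of_ne_zero hnc, ← Complex.ofReal_natCast, ← Complex.ofReal_log h0.le]
    unfold xv
    congr 1
    ring
  rw [e1, zv_al]
  congr 2
  ring

theorem hasProd_iff (s : ℂ) (G : ℂ) :
    HasProd (fun v : T => ∏ i, (1 - α v i * (q v.1 : ℂ) ^ (-(m + s)))⁻¹) G ↔
    HasProd (fun v => ∏ i, (1 - zv (NN T) (al T m α) v i * xv (NN T) v s)⁻¹) G := by
  have h : (fun v : T => ∏ i, (1 - α v i * (q v.1 : ℂ) ^ (-(m + s)))⁻¹) =
      (fun v => ∏ i, (1 - zv (NN T) (al T m α) v i * xv (NN T) v s)⁻¹) :=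
    funext fun v => (factor_eq v s).symm
  rw [h]

theorem re_add (s : ℂ) : ((m : ℂ) + s).re = m + s.re := by
  rw [Complex.add_re, Complex.natCast_re]

theorem re_sub (s : ℂ) : (s - (m : ℂ)).re = s.re - m := by
  rw [Complex.sub_re, Complex.natCast_re]

theorem lseries_iff (hα : LocalRoots T m α) (G : ℂ → ℂ) : IsLSeries T m α G ↔
    ∀ s : ℂ, 1 / 2 < s.re → G (m + s) = LE (NN T) (al T m α) s := by
  have E := sys hα
  constructor
  · intro h s hs
    have h1 := h (m + s) (by rw [re_add]; linarith)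
    rw [hasProd_iff] at h1
    rw [E.LE_eq hs]
    exact h1.unique (E.hasProd hs)
  · intro h s hs
    have h1 : 1 / 2 < (s - m).re := by rw [re_sub]; linarith
    have h2 := h (s - m) h1
    have h3 := (hasProd_iff (α := α) (m := m) (s - m) (G s)).2
    have e1 : (m : ℂ) + (s - m) = s := by ring
    rw [e1] at h2 h3
    rw [h2] at h3 ⊢
    rw [E.LE_eq h1] at h3 ⊢
    exact h3 (E.hasProd h1)

theorem inSector_iff (ρ : ℝ) (s : ℂ) : InSector m ρ (m + s) ↔ s ∈ Sect ρ := by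
  unfold InSector Sect
  have e1 : (m : ℂ) + s - m = s := by ring
  rw [e1, Set.mem_ofPred_eq]
  have e2 : (m : ℂ) + s ≠ m ↔ s ≠ 0 := by
    constructor
    · intro h h1
      exact h (by rw [h1, add_zero])
    · intro h h1
      exact h (by linear_combination h1)
  rw [e2]

/-- the map `s ↦ m + s` -/
theorem tendsto_iff (ρ : ℝ) (f : ℂ → ℂ) (l : ℂ) :
    Tendsto (fun s => f (s - m)) (𝓝[{s | InSector m ρ s}] (m : ℂ)) (𝓝 l) ↔
      Tendsto f (𝓝[Sect ρ] 0) (𝓝 l) := by
  have h1 : Tendsto (fun s : ℂ => (m : ℂ) + s) (𝓝[Sect ρ] 0) (𝓝[{s | InSector m ρ s}] (m : ℂ)) := by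
    refine tendsto_nhdsWithin_iff.2 ⟨?_, ?_⟩
    · have : Tendsto (fun s : ℂ => (m : ℂ) + s) (𝓝 0) (𝓝 ((m : ℂ) + 0)) :=
        (continuous_const.add continuous_id).tendsto 0
      rw [add_zero] at this
      exact this.mono_left nhdsWithin_le_nhds
    · filter_upwards [self_mem_nhdsWithin] with s hs
      exact (inSector_iff ρ s).2 hs
  have h2 : Tendsto (fun s : ℂ => s - (m : ℂ)) (𝓝[{s | InSector m ρ s}] (m : ℂ)) (𝓝[Sect ρ] 0) := by
    refine tendsto_nhdsWithin_iff.2 ⟨?_, ?_⟩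
    · have : Tendsto (fun s : ℂ => s - (m : ℂ)) (𝓝 (m : ℂ)) (𝓝 ((m : ℂ) - m)) :=
        (continuous_id.sub continuous_const).tendsto (m : ℂ)
      rw [sub_self] at this
      exact this.mono_left nhdsWithin_le_nhds
    · filter_upwards [self_mem_nhdsWithin] with s hs
      rw [← inSector_iff (m := m)]
      have e1 : (m : ℂ) + (s - m) = s := by ring
      rw [e1]
      exact hs
  constructor
  · intro h
    refine (h.comp h1).congr fun s => ?_
    simp only [Function.comp_apply, add_sub_cancel_left]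
  · intro h
    exact h.comp h2

theorem part_one (hα : LocalRoots T m α) (r : ℕ) (A : ℝ) (hA : 0 < A) (ρ₀ : ℝ) (h : 1 ≤ ρ₀) :
    (∀ ρ ρ' : ℝ, ρ₀ < ρ → ρ < ρ' →
      Tendsto (fun Y : ℝ => S T m α ρ ρ' Y + r * Real.log (Real.log Y)) atTop
        (𝓝 (Real.log A - r * Real.eulerMascheroniConstant / ρ))) ↔
      ∃ G : ℂ → ℂ, IsContinuation T m α ρ₀ r A G := by
  have E := sys hα
  simp only [S_eq hα]
  rw [E.star_equiv (hreal hα) h r hA]
  constructor
  · rintro ⟨G, h1, h2, h3⟩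
    refine ⟨fun s => G (s - m), ?_, ?_, ?_⟩
    · rw [lseries_iff hα]
      intro s hs
      simp only [add_sub_cancel_left]
      exact h2 s hs
    · intro s hs
      have h4 : s - m ∈ Sect ρ₀ ∨ 1 / 2 < (s - m).re := by
        rcases hs with hs | hs
        · left
          rw [← inSector_iff (m := m)]
          have e1 : (m : ℂ) + (s - m) = s := by ring
          rw [e1]
          exact hs
        · right
          rw [re_sub]
          linarith
      obtain ⟨h5, h6⟩ := h1 _ h4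
      refine ⟨?_, h6⟩
      exact h5.comp s (differentiableAt_id.sub_const (m : ℂ))
    · intro ρ hρ
      exact (tendsto_iff ρ (fun s => G s / s ^ r) A).2 (h3 ρ hρ)
  · rintro ⟨G, h1, h2, h3⟩
    rw [lseries_iff hα] at h1
    refine ⟨fun s => G (m + s), ?_, h1, ?_⟩
    · intro s hs
      have h4 : InSector m ρ₀ (m + s) ∨ (m : ℝ) + 1 / 2 < (m + s : ℂ).re := by
        rcases hs with hs | hs
        · exact Or.inl ((inSector_iff _ _).2 hs)
        · right
          rw [re_add]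
          linarith
      obtain ⟨h5, h6⟩ := h2 _ h4
      refine ⟨?_, h6⟩
      exact h5.comp s (differentiableAt_id.const_add (m : ℂ))
    · intro ρ hρ
      rw [← tendsto_iff (m := m)]
      refine (h3 ρ hρ).congr fun s => ?_
      have e1 : (m : ℂ) + (s - m) = s := by ring
      simp only [e1]

theorem part_two (hα : LocalRoots T m α) (r : ℕ) (ρ₀ : ℝ) (h : 1 ≤ ρ₀) :
    (∀ ρ ρ' : ℝ, ρ₀ < ρ → ρ < ρ' → ∃ l : ℝ,
      Tendsto (fun Y : ℝ => S T m α ρ ρ' Y + r * Real.log (Real.log Y)) atTop (𝓝 l)) ↔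
      ∃ A : ℝ, 0 < A ∧ ∃ G : ℂ → ℂ, IsContinuation T m α ρ₀ r A G := by
  constructor
  · intro hl
    simp only [S_eq hα] at hl
    obtain ⟨A, hA, h1⟩ := (sys hα).star_conv h r hl
    exact ⟨A, hA, (part_one hα r A hA ρ₀ h).1 (by simpa only [S_eq hα] using h1)⟩
  · rintro ⟨A, hA, hG⟩ ρ ρ' hρ hρ'
    exact ⟨_, (part_one hα r A hA ρ₀ h).2 hG ρ ρ' hρ hρ'⟩

theorem toMem {t : ℝ} (ht : 0 < t) (ρ : ℝ) (hρ : 0 < ρ) : InSector m ρ ((m : ℂ) + (t : ℂ)) := by
  refine ⟨fun h => ?_, ?_⟩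
  · have : (t : ℂ) = 0 := by linear_combination h
    have : t = 0 := by exact_mod_cast this
    linarith
  · rw [add_sub_cancel_left, Complex.arg_ofReal_of_nonneg ht.le, abs_zero]
    have := Real.pi_pos
    positivity

theorem tendsto_real (ρ : ℝ) (hρ : 0 < ρ) :
    Tendsto (fun t : ℝ => (m : ℂ) + (t : ℂ)) (𝓝[>] 0) (𝓝[{s | InSector m ρ s}] (m : ℂ)) := by
  refine tendsto_nhdsWithin_iff.2 ⟨?_, ?_⟩
  · have : Tendsto (fun t : ℝ => (m : ℂ) + (t : ℂ)) (𝓝 0) (𝓝 ((m : ℂ) + ((0 : ℝ) : ℂ))) :=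
      (continuous_const.add Complex.continuous_ofReal).tendsto 0
    rw [Complex.ofReal_zero, add_zero] at this
    exact this.mono_left nhdsWithin_le_nhds
  · filter_upwards [self_mem_nhdsWithin] with t ht
    exact toMem ht ρ hρ

theorem neBot (ρ : ℝ) (hρ : 0 < ρ) : (𝓝[{s | InSector m ρ s}] (m : ℂ)).NeBot :=
  (tendsto_real ρ hρ).neBot

theorem inSector_mono {ρ ρ' : ℝ} (hρ : 0 < ρ) (h : ρ ≤ ρ') {s : ℂ} (hs : InSector m ρ' s) :
    InSector m ρ s := by
  refine ⟨hs.1, hs.2.trans_le ?_⟩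
  have := Real.pi_pos
  gcongr

theorem inSector_one (s : ℂ) : InSector m 1 s ↔ (m : ℝ) < s.re := by
  have h := inSector_iff (m := m) 1 (s - m)
  have e1 : (m : ℂ) + (s - m) = s := by ring
  rw [e1, sect_one] at h
  rw [h, Set.mem_ofPred_eq, re_sub, sub_pos]

theorem nhds_le (ρ : ℝ) : 𝓝[{s | InSector m ρ s}] (m : ℂ) ≤ 𝓝[≠] (m : ℂ) :=
  nhdsWithin_mono _ fun _ hs => hs.1

/-- order and leading coefficient from the limit in a sector -/
theorem order_iff {F : ℂ → ℂ} (hF : MeromorphicAt F (m : ℂ)) (r : ℕ) {A : ℂ} (hA : A ≠ 0) {ρ : ℝ}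
    (hρ : 0 < ρ) :
    Tendsto (fun s => F s / (s - m) ^ r) (𝓝[{s | InSector m ρ s}] (m : ℂ)) (𝓝 A) ↔
      meromorphicOrderAt F (m : ℂ) = ((r : ℤ) : WithTop ℤ) ∧
        meromorphicTrailingCoeffAt F (m : ℂ) = A := by
  have := neBot (m := m) ρ hρ
  have hle := nhds_le (m := m) ρ
  set P : ℂ → ℂ := fun s => (s - m) ^ r with hP
  have hPm : MeromorphicAt P (m : ℂ) := by fun_prop
  have hgm : MeromorphicAt (fun s => F s / P s) (m : ℂ) := hF.div hPm
  have hgo : (fun s => F s / (s - (m : ℂ)) ^ r) = fun s => F s / P s := rfl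
  have hlim : ∀ n : ℤ, meromorphicOrderAt F (m : ℂ) = (n : WithTop ℤ) →
      Tendsto (fun s => (s - (m : ℂ)) ^ (-n) * F s) (𝓝[≠] (m : ℂ))
        (𝓝 (meromorphicTrailingCoeffAt F (m : ℂ))) := by
    intro n hn
    have h1 := hF.tendsto_nhds_meromorphicTrailingCoeffAt
    rw [hn] at h1
    refine h1.congr fun s => ?_
    simp
  constructor
  · intro h
    rcases lt_trichotomy (meromorphicOrderAt (fun s => F s / P s) (m : ℂ)) 0 with h0 | h0 | h0
    · exfalso
      have h1 := (tendsto_cobounded_iff_meromorphicOrderAt_neg hgm).2 h0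
      have h2 := h1.mono_left hle
      exact h.not_tendsto (Metric.disjoint_nhds_cobounded A) h2
    · have h1 : meromorphicOrderAt F (m : ℂ) = ((r : ℤ) : WithTop ℤ) := by
        have e1 : F =ᶠ[𝓝[≠] (m : ℂ)] (fun s => F s / P s) * P := by
          filter_upwards [self_mem_nhdsWithin] with s hs
          have hs1 : s - (m : ℂ) ≠ 0 := sub_ne_zero.2 hs
          simp only [Pi.mul_apply, hP]
          field_simp
        have e2 : meromorphicOrderAt P (m : ℂ) = ((r : ℤ) : WithTop ℤ) := by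
          rw [meromorphicOrderAt_eq_int_iff hPm]
          refine ⟨fun _ => 1, analyticAt_const, one_ne_zero, ?_⟩
          filter_upwards with s
          simp [hP]
        rw [meromorphicOrderAt_congr e1, meromorphicOrderAt_mul hgm hPm, h0, e2, zero_add]
      refine ⟨h1, ?_⟩
      have h3 := (hlim r h1).mono_left hle
      refine tendsto_nhds_unique h3 (h.congr fun s => ?_)
      rw [zpow_neg, zpow_natCast]
      field_simp
    · exfalso
      have h1 := (tendsto_zero_iff_meromorphicOrderAt_pos hgm).2 h0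
      exact hA (tendsto_nhds_unique h (h1.mono_left hle))
  · rintro ⟨h1, h2⟩
    have h3 := (hlim r h1).mono_left hle
    rw [h2] at h3
    refine h3.congr fun s => ?_
    rw [zpow_neg, zpow_natCast]
    field_simp

/-- the leading coefficient is positive -/
theorem coeff_pos (hα : LocalRoots T m α) {F : ℂ → ℂ} (h1 : IsLSeries T m α F)
    (h2 : ∀ s : ℂ, (m : ℝ) < s.re → DifferentiableAt ℂ F s) (h3 : MeromorphicAt F (m : ℂ))
    (h0 : ∀ s : ℂ, (m : ℝ) < s.re → F s ≠ 0) {r : ℕ}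
    (hr : meromorphicOrderAt F (m : ℂ) = ((r : ℤ) : WithTop ℤ)) :
    ∃ A : ℝ, 0 < A ∧ meromorphicTrailingCoeffAt F (m : ℂ) = A := by
  set B := meromorphicTrailingCoeffAt F (m : ℂ) with hB
  have hB0 : B ≠ 0 := by
    rw [hB]
    refine (h3.meromorphicTrailingCoeffAt_ne_zero) ?_
    rw [hr]
    exact WithTop.coe_ne_top
  have hlim := ((order_iff h3 r hB0 (ρ := 1) one_pos).2 ⟨hr, rfl⟩).comp (tendsto_real (m := m) 1 one_pos)
  have hpos : ∀ t : ℝ, 0 < t → (F ((m : ℂ) + t)).im = 0 ∧ 0 < (F ((m : ℂ) + t)).re := by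
    intro t ht
    have E := sys hα
    refine E.real_pos (hreal hα) (G := fun s => F ((m : ℂ) + s)) (fun s hs => ?_) (fun s hs => ?_)
      (fun s hs => (lseries_iff hα F).1 h1 s hs) ht
    · exact (h2 _ (by rw [re_add]; linarith)).comp s (differentiableAt_id.const_add (m : ℂ))
    · exact h0 _ (by rw [re_add]; linarith)
  have hq : ∀ t : ℝ, 0 < t → F ((m : ℂ) + t) / ((m : ℂ) + t - m) ^ r =
      (((F ((m : ℂ) + t)).re / t ^ r : ℝ) : ℂ) := by
    intro t ht
    have e1 : F ((m : ℂ) + t) = (((F ((m : ℂ) + t)).re : ℝ) : ℂ) :=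
      Complex.ext (by simp) (by rw [Complex.ofReal_im, (hpos t ht).1])
    have e2 : (m : ℂ) + t - m = (t : ℂ) := by ring
    rw [e2]
    conv_lhs => rw [e1]
    push_cast
    rfl
  have him : B.im = 0 := by
    have h4 := (Complex.continuous_im.tendsto _).comp hlim
    refine tendsto_nhds_unique h4 ((tendsto_const_nhds (x := (0 : ℝ))).congr' ?_)
    filter_upwards [self_mem_nhdsWithin] with t ht
    simp only [Function.comp_apply]
    rw [hq t ht, Complex.ofReal_im]
  have hre : 0 ≤ B.re := by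
    have h4 := (Complex.continuous_re.tendsto _).comp hlim
    refine ge_of_tendsto h4 ?_
    filter_upwards [self_mem_nhdsWithin] with t ht
    have ht' : (0 : ℝ) < t := ht
    simp only [Function.comp_apply]
    rw [hq t ht, Complex.ofReal_re]
    exact (div_pos (hpos t ht).2 (pow_pos ht' r)).le
  refine ⟨B.re, lt_of_le_of_ne hre fun h => hB0 ?_, ?_⟩
  · exact Complex.ext h.symm him
  · exact Complex.ext (by simp) (by rw [Complex.ofReal_im, him])

theorem part_three (hα : LocalRoots T m α) (r : ℕ) {F : ℂ → ℂ} (h1 : IsLSeries T m α F)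
    (h2 : ∀ s : ℂ, (m : ℝ) < s.re → DifferentiableAt ℂ F s) (h3 : MeromorphicAt F (m : ℂ))
    {A : ℝ} (hA : 0 < A) :
    (∃ G : ℂ → ℂ, IsContinuation T m α 1 r A G) ↔
      (∀ s : ℂ, (m : ℝ) < s.re → F s ≠ 0) ∧
        meromorphicOrderAt F (m : ℂ) = ((r : ℤ) : WithTop ℤ) ∧
        meromorphicTrailingCoeffAt F (m : ℂ) = A := by
  have hA' : (A : ℂ) ≠ 0 := by exact_mod_cast hA.ne'
  constructor
  · rintro ⟨G, g1, g2, g3⟩
    have hFG : ∀ s : ℂ, (m : ℝ) < s.re → F s = G s := by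
      have hU : IsOpen {s : ℂ | (m : ℝ) < s.re} := isOpen_lt continuous_const Complex.continuous_re
      have a1 : AnalyticOnNhd ℂ F {s : ℂ | (m : ℝ) < s.re} :=
        DifferentiableOn.analyticOnNhd (fun s hs => (h2 s hs).differentiableWithinAt) hU
      have a2 : AnalyticOnNhd ℂ G {s : ℂ | (m : ℝ) < s.re} :=
        DifferentiableOn.analyticOnNhd
          (fun s hs => (g2 s (Or.inl ((inSector_one s).2 hs))).1.differentiableWithinAt) hU
      have hV : IsOpen {s : ℂ | (m : ℝ) + 1 / 2 < s.re} :=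
        isOpen_lt continuous_const Complex.continuous_re
      have e0 : ((m : ℂ) + 1).re = m + 1 := by rw [re_add, Complex.one_re]
      have h2' : (m : ℂ) + 1 ∈ {s : ℂ | (m : ℝ) < s.re} := by
        rw [Set.mem_ofPred_eq, e0]
        linarith
      have a3 := a1.eqOn_of_preconnected_of_eventuallyEq a2
        (convex_halfSpace_re_gt (m : ℝ)).isPreconnected h2' (by
          filter_upwards [hV.mem_nhds (show (m : ℝ) + 1 / 2 < ((m : ℂ) + 1).re by rw [e0]; linarith)]
            with z hz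
          exact (h1 z hz).unique (g1 z hz))
      exact fun s hs => a3 hs
    refine ⟨fun s hs => ?_, ?_⟩
    · rw [hFG s hs]
      exact (g2 s (Or.inl ((inSector_one s).2 hs))).2
    · rw [← order_iff h3 r hA' (ρ := 2) (by norm_num)]
      refine (g3 2 (by norm_num)).congr' ?_
      filter_upwards [self_mem_nhdsWithin] with s hs
      rw [hFG s ((inSector_one s).1 (inSector_mono (by norm_num) (by norm_num) hs))]
  · rintro ⟨g1, g2⟩
    refine ⟨F, h1, ?_, fun ρ hρ => ?_⟩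
    · intro s hs
      have hs1 : (m : ℝ) < s.re := by
        rcases hs with hs | hs
        · exact (inSector_one s).1 hs
        · linarith
      exact ⟨h2 s hs1, g1 s hs1⟩
    · exact (order_iff h3 r hA' (by linarith)).2 g2

/-- **Main theorem.** Let `α_{v,i}`, `v ∈ T`, be local roots of weight `≤ 2m - 1` with real power sums, for
example the eigenvalues of Frobenius on `H^{2m-1}(X)`, and `r ≥ 0` an integer.
(1) The sums are finite.
(2) For every `ρ₀ ≥ 1`: `S_{ρ,ρ'}(Y) + r log log Y` converges for all `ρ' > ρ > ρ₀` if and only if for some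
`A > 0` the Euler product has a continuation without zeros to the sector `|arg(s - m)| < π/(2ρ₀)` with the
leading term `A (s - m)^r` in all smaller sectors.
(3) For every `ρ₀ ≥ 1` and `A > 0`: such a continuation exists for this `A` if and only if the limits are
`log A - r γ / ρ`.
(4) If `F` is a continuation of the Euler product to `Re s > m` which is meromorphic at `s = m`, then
`S_{ρ,ρ'}(Y) + r log log Y` converges for all `ρ' > ρ > 1` if and only if `F` has no zeros in `Re s > m`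
and its order at `s = m` is `r`.
(5) In the situation of (4), and for `A > 0`, the limits are `log A - r γ / ρ` for all `ρ' > ρ > 1` if and
only if `F` has no zeros in `Re s > m`, its order at `s = m` is `r` and its leading coefficient is `A`. -/
theorem result (K : Type) [Field K] [NumberField K] (T : Set (HeightOneSpectrum (𝓞 K))) (m d : ℕ)
    (α : T → Fin d → ℂ) (hα : LocalRoots T m α) (r : ℕ) :
    (∀ ρ' Y : ℝ, (pairs T ρ' Y).Finite) ∧
    (∀ ρ₀ : ℝ, 1 ≤ ρ₀ →
      ((∀ ρ ρ' : ℝ, ρ₀ < ρ → ρ < ρ' → ∃ l : ℝ,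
        Tendsto (fun Y : ℝ => S T m α ρ ρ' Y + r * Real.log (Real.log Y)) atTop (𝓝 l)) ↔
      ∃ A : ℝ, 0 < A ∧ ∃ G : ℂ → ℂ, IsContinuation T m α ρ₀ r A G)) ∧
    (∀ ρ₀ : ℝ, 1 ≤ ρ₀ → ∀ A : ℝ, 0 < A →
      ((∀ ρ ρ' : ℝ, ρ₀ < ρ → ρ < ρ' →
        Tendsto (fun Y : ℝ => S T m α ρ ρ' Y + r * Real.log (Real.log Y)) atTop
          (𝓝 (Real.log A - r * Real.eulerMascheroniConstant / ρ))) ↔
      ∃ G : ℂ → ℂ, IsContinuation T m α ρ₀ r A G)) ∧
    ∀ F : ℂ → ℂ, IsLSeries T m α F → (∀ s : ℂ, (m : ℝ) < s.re → DifferentiableAt ℂ F s) →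
      MeromorphicAt F (m : ℂ) →
      ((∀ ρ ρ' : ℝ, 1 < ρ → ρ < ρ' → ∃ l : ℝ,
        Tendsto (fun Y : ℝ => S T m α ρ ρ' Y + r * Real.log (Real.log Y)) atTop (𝓝 l)) ↔
      (∀ s : ℂ, (m : ℝ) < s.re → F s ≠ 0) ∧ meromorphicOrderAt F (m : ℂ) = ((r : ℤ) : WithTop ℤ)) ∧
      ∀ A : ℝ, 0 < A →
      ((∀ ρ ρ' : ℝ, 1 < ρ → ρ < ρ' →
        Tendsto (fun Y : ℝ => S T m α ρ ρ' Y + r * Real.log (Real.log Y)) atTop
          (𝓝 (Real.log A - r * Real.eulerMascheroniConstant / ρ))) ↔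
      (∀ s : ℂ, (m : ℝ) < s.re → F s ≠ 0) ∧ meromorphicOrderAt F (m : ℂ) = ((r : ℤ) : WithTop ℤ) ∧
        meromorphicTrailingCoeffAt F (m : ℂ) = A) := by
  refine ⟨fun ρ' Y => (sys hα).finS _, fun ρ₀ h => part_two hα r ρ₀ h,
    fun ρ₀ h A hA => part_one hα r A hA ρ₀ h, fun F h1 h2 h3 => ⟨?_, fun A hA => ?_⟩⟩
  · rw [part_two hα r 1 le_rfl]
    constructor
    · rintro ⟨A, hA, hG⟩
      obtain ⟨g1, g2, -⟩ := (part_three hα r h1 h2 h3 hA).1 hG
      exact ⟨g1, g2⟩
    · rintro ⟨g1, g2⟩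
      obtain ⟨A, hA, hA2⟩ := coeff_pos hα h1 h2 h3 g1 g2
      exact ⟨A, hA, (part_three hα r h1 h2 h3 hA).2 ⟨g1, g2, hA2⟩⟩
  · rw [part_one hα r A hA 1 le_rfl]
    exact part_three hα r h1 h2 h3 hA

end aux

end Pool.Agent.Results.MP_b8021b_nt.ContinuationFromFiniteTraces
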