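import Pool.Agent.X287.Beta
import Pool.Agent.X287.Kit2
import Pool.Agent.X287.RSys2

/-!
# The order in the conjecture of Beilinson and Bloch from one-sided bounds for finite sums of traces

`k` is any number field. Let `α_{v,1}, …, α_{v,d}` be, for each finite place `v` of `k`, the reciprocal roots of the
local factor of an `L`-function of odd weight `2m - 1`:

`L(s) = ∏_v ∏_i (1 - α_{v,i} q_v^{-s})⁻¹`,  `|α_{v,i}| ≤ q_v^{m - 1/2}`,  `∑_i α_{v,i}^n ∈ ℝ`.

For `V = H^{2m-1}(X)`, `X` smooth projective over `k`, the `α_{v,i}` are the eigenvalues of the geometric Frobenius on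
`V^{I_v}` (and zeros, to have `d` of them); the bound is Deligne's theorem for the `v` of good reduction, and the power
sums are the traces `Tr(Frob_v^n | V)`, integers for these `v` (at the other `v` both are the usual expectations; or
one omits these factors, `α_v = 0`). For `ρ' > ρ > 1` let

`S_{ρ,ρ'}(Y) = - ∑ w_{1/ρ}(n log q_v / log Y) Tr(Frob_v^n | V) / (n q_v^{nm})`,

the FINITE sum over the pairs `(v, n)`, `n ≥ 1`, with `q_v^n ≤ exp((log Y)^ρ')`, where `w_α` is the smooth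
Mittag-Leffler weight `w_α(u) = (2π)⁻¹ ∫ Re (exp(z - u z^α) / z) dt`, `z = 1 + i t`, `w_α(0) = 1`.

The ONLY hypothesis is that `L(s)` continues holomorphically to a neighbourhood of the real segment `[m, m + 1/2]`; let
`μ` be the order and `l` the leading coefficient at `s = m`. Nothing is assumed on a continuation to non-real points
far from the segment, on a functional equation or on zeros. For `ρ₀ ≥ 1` let `(Z)` be the statement

  `L(s)` has a holomorphic continuation WITHOUT ZEROS to the union of the sector `|arg (s - m)| < π / (2 ρ₀)` (the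
  half plane `Re s > m` for `ρ₀ = 1`) and the half plane `{Re s > m + 1/2}`.

Fix, for every `ρ`, a `ρ' = t(ρ) > ρ`. Let `r` be a natural number, for instance the rank of `CH^m_hom(X)`, `B > 0`, and
`γ` the constant of Euler. The words for all `ρ` mean for all `ρ > ρ₀`.

1. `(Z)` if and only if for all `ρ`, `ε > 0`: `S_{ρ,ρ'}(Y) ≤ exp (ε (log Y)^ρ)` for all large `Y`.
2. `(Z)` and `μ ≤ r` if and only if for all `ρ`: `limsup S_{ρ,ρ'}(Y) / log log Y ≤ r`; if and only if for all `ρ` the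
   function `S_{ρ,ρ'}(Y) - r log log Y` is bounded above.
3. `(Z)` and `μ = r` if and only if for all `ρ` the function `S_{ρ,ρ'}(Y) - r log log Y` is bounded.
4. `(Z)` and (`μ < r`, or `μ = r` and `l ≥ B`) if and only if for all `ρ`, `ε > 0` and all large `Y`:
   `S_{ρ,ρ'}(Y) ≤ r log log Y - log B + r γ / ρ + ε`.
5. `(Z)`, `μ = r` and `l = B` if and only if for all `ρ`: `S_{ρ,ρ'}(Y) - r log log Y → r γ / ρ - log B`.

So the inequality `ord_{s=m} L(H^{2m-1}(X), s) ≤ rank CH^m_hom(X)` is, together with the continuation and the absence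
of zeros in the sector, equivalent to an upper bound for finite sums of traces of Frobenius, and the equality to the
two-sided bound. The conditions in 1, 2, 4 are ONE-SIDED.

Proof: Landau's theorem on Laplace transforms of nonnegative functions, for `log L(m + v^{1/ρ})`; see
`Pool.Agent.X287.RSect`, `RSys`, `RSys2`, `Beta`, `Kit`, and `Pool.Agent.TH942.SL`, `ES` for the asymptotic theory.
-/

set_option autoImplicit false

open IsDedekindDomain NumberField Filter Topology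

namespace Pool.Agent.Results.MP_b8021b_nt.OrderFromOneSidedBounds

variable {k : Type} [Field k] [NumberField k] {d : ℕ}

/-- `q_v`, the number of elements of the residue field. -/
noncomputable def q (v : HeightOneSpectrum (𝓞 k)) : ℕ := Ideal.absNorm v.asIdeal

/-- Local roots of weight at most `2m - 1` whose power sums (the traces of Frobenius) are real. -/
def LocalRoots (m : ℕ) (α : HeightOneSpectrum (𝓞 k) → Fin d → ℂ) : Prop :=
  (∀ v i, ‖α v i‖ ≤ (q v : ℝ) ^ ((m : ℝ) - 1 / 2)) ∧ ∀ v n, (∑ i, α v i ^ n).im = 0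

/-- The Mittag-Leffler weight `w_α(u) = (2π)⁻¹ ∫ Re (exp (z - u z^α) / z) dt`, `z = 1 + it`. -/
noncomputable def weight (α u : ℝ) : ℝ :=
  (2 * Real.pi)⁻¹ * ∫ t : ℝ, (Complex.exp ((1 + t * Complex.I) -
    u * (1 + t * Complex.I) ^ (α : ℂ)) / (1 + t * Complex.I)).re

/-- The pairs `(v, n)`, `n = x.2 + 1`, with `q_v ^ n ≤ exp((log Y)^ρ')`. -/
def pairs (k : Type) [Field k] [NumberField k] (ρ' Y : ℝ) : Set (HeightOneSpectrum (𝓞 k) × ℕ) :=
  {x | (q x.1 : ℝ) ^ (x.2 + 1) ≤ Real.exp (Real.log Y ^ ρ')}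

/-- `S_{ρ,ρ'}(Y)`: minus the sum over the finite set `pairs`, with `n = x.2 + 1`. -/
noncomputable def S (α : HeightOneSpectrum (𝓞 k) → Fin d → ℂ) (m : ℕ) (ρ ρ' Y : ℝ) : ℝ :=
  -∑ᶠ x ∈ pairs k ρ' Y, weight ρ⁻¹ (((x.2 : ℝ) + 1) * Real.log (q x.1) / Real.log Y) *
    ((∑ i, α x.1 i ^ (x.2 + 1)).re / (((x.2 : ℝ) + 1) * (q x.1 : ℝ) ^ ((x.2 + 1) * m)))

/-- `F` is the `L`-function for `Re s > m + 1/2`. -/
def IsLSeries (α : HeightOneSpectrum (𝓞 k) → Fin d → ℂ) (m : ℕ) (F : ℂ → ℂ) : Prop :=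
  ∀ s : ℂ, (m : ℝ) + 1 / 2 < s.re → HasProd (fun v : HeightOneSpectrum (𝓞 k) =>
    ∏ i, (1 - α v i * (q v : ℂ) ^ (-s))⁻¹) (F s)

/-- `F` continues the `L`-function holomorphically to a neighbourhood of the real segment `[m, m + 1/2]`. -/
def IsRealContinuation (α : HeightOneSpectrum (𝓞 k) → Fin d → ℂ) (m : ℕ) (F : ℂ → ℂ) : Prop :=
  IsLSeries α m F ∧ ∀ x : ℝ, (m : ℝ) ≤ x → x ≤ (m : ℝ) + 1 / 2 → AnalyticAt ℂ F (x : ℂ)

/-- `s` lies in the sector `|arg (s - m)| < π / (2ρ)`, `s ≠ m`; the half plane `Re s > m` for `ρ = 1`. -/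
def InSector (m : ℕ) (ρ : ℝ) (s : ℂ) : Prop := s ≠ m ∧ |Complex.arg (s - m)| < Real.pi / (2 * ρ)

/-- `(Z)`: the `L`-function has a holomorphic continuation without zeros to the union of the sector and
`{Re s > m + 1/2}`. -/
def ZeroFree (α : HeightOneSpectrum (𝓞 k) → Fin d → ℂ) (m : ℕ) (ρ₀ : ℝ) : Prop := ∃ F : ℂ → ℂ,
  IsLSeries α m F ∧
  ∀ s : ℂ, InSector m ρ₀ s ∨ (m : ℝ) + 1 / 2 < s.re → DifferentiableAt ℂ F s ∧ F s ≠ 0

/-- `F` has the order `μ` and the leading coefficient `l` at `s = m`. -/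
def HasOrder (m : ℕ) (F : ℂ → ℂ) (μ : ℕ) (l : ℂ) : Prop :=
  l ≠ 0 ∧ Tendsto (fun s : ℂ => F s / (s - m) ^ μ) (𝓝[≠] (m : ℂ)) (𝓝 l)

open Pool.Agent.X287.Kit in
theorem S_eq (α : HeightOneSpectrum (𝓞 k) → Fin d → ℂ) (m : ℕ) (ρ ρ' Y : ℝ) :
    S α m ρ ρ' Y = -Pool.Agent.TH942.ES.StE (fun v : HeightOneSpectrum (𝓞 k) => q v)
      (al (fun v : HeightOneSpectrum (𝓞 k) => q v) α m) ρ ρ' Y := by
  unfold S Pool.Agent.TH942.ES.StE
  congr 1
  refine finsum_congr fun x => ?_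
  refine finsum_congr_Prop rfl fun _ => ?_
  have e1 : weight = Pool.Agent.TH942.SL.wml := rfl
  rw [e1]
  congr 1
  have h := cP_al (N := fun v : HeightOneSpectrum (𝓞 k) => q v) (β := α) (c₀ := (m : ℝ)) (p := x)
    (Pool.Agent.H921R2.TatePole.two_le_nm x.1)
  refine Eq.trans ?_ h.symm
  congr 2
  rw [← Real.rpow_natCast]
  push_cast
  rfl

open Pool.Agent.X287.Kit Pool.Agent.X287.RS in
/-- **The order of the `L`-function from one-sided bounds for finite sums of traces.** -/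
theorem result (k : Type) [Field k] [NumberField k] (m d : ℕ)
    (α : HeightOneSpectrum (𝓞 k) → Fin d → ℂ) (hα : LocalRoots m α)
    (F : ℂ → ℂ) (hF : IsRealContinuation α m F) :
    (∀ ρ' Y : ℝ, (pairs k ρ' Y).Finite) ∧
    ∃ (μ : ℕ) (l : ℂ), HasOrder m F μ l ∧ ∀ t : ℝ → ℝ, (∀ ρ, ρ < t ρ) → ∀ ρ₀ : ℝ, 1 ≤ ρ₀ →
      -- 1. continuation and zeros
      (ZeroFree α m ρ₀ ↔ ∀ ρ : ℝ, ρ₀ < ρ → ∀ ε : ℝ, 0 < ε → ∀ᶠ Y : ℝ in atTop,
        S α m ρ (t ρ) Y ≤ Real.exp (ε * Real.log Y ^ ρ)) ∧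
      -- 2. upper bounds for the order
      (∀ r : ℕ, (ZeroFree α m ρ₀ ∧ μ ≤ r) ↔
        ∀ ρ : ℝ, ρ₀ < ρ → ∀ ε : ℝ, 0 < ε → ∀ᶠ Y : ℝ in atTop,
          S α m ρ (t ρ) Y ≤ (r + ε) * Real.log (Real.log Y)) ∧
      (∀ r : ℕ, (ZeroFree α m ρ₀ ∧ μ ≤ r) ↔
        ∀ ρ : ℝ, ρ₀ < ρ → ∃ C : ℝ, ∀ᶠ Y : ℝ in atTop,
          S α m ρ (t ρ) Y ≤ r * Real.log (Real.log Y) + C) ∧
      -- 3. the order
      (∀ r : ℕ, (ZeroFree α m ρ₀ ∧ μ = r) ↔
        ∀ ρ : ℝ, ρ₀ < ρ → ∃ C : ℝ, ∀ᶠ Y : ℝ in atTop,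
          |S α m ρ (t ρ) Y - r * Real.log (Real.log Y)| ≤ C) ∧
      -- 4. the leading coefficient from below
      (∀ (r : ℕ) (B : ℝ), 0 < B → ((ZeroFree α m ρ₀ ∧ (μ < r ∨ μ = r ∧ B ≤ l.re)) ↔
        ∀ ρ : ℝ, ρ₀ < ρ → ∀ ε : ℝ, 0 < ε → ∀ᶠ Y : ℝ in atTop,
          S α m ρ (t ρ) Y ≤ r * Real.log (Real.log Y) - Real.log B +
            r * Real.eulerMascheroniConstant / ρ + ε)) ∧
      -- 5. the leading coefficient
      (∀ (r : ℕ) (B : ℝ), 0 < B → ((ZeroFree α m ρ₀ ∧ μ = r ∧ l = B) ↔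
        ∀ ρ : ℝ, ρ₀ < ρ → Tendsto (fun Y : ℝ =>
          S α m ρ (t ρ) Y - r * Real.log (Real.log Y)) atTop
            (𝓝 (r * Real.eulerMascheroniConstant / ρ - Real.log B)))) := by
  have hN : ∀ v : HeightOneSpectrum (𝓞 k), 2 ≤ q v := Pool.Agent.H921R2.TatePole.two_le_nm
  have hreal : Re (fun v : HeightOneSpectrum (𝓞 k) => q v)
      (al (fun v : HeightOneSpectrum (𝓞 k) => q v) α m) := re_al hN hα.2
  have E : Pool.Agent.TH942.ES.Sys (fun v : HeightOneSpectrum (𝓞 k) => q v)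
      (al (fun v : HeightOneSpectrum (𝓞 k) => q v) α m) :=
    nf_all _ (fun v i => norm_al (hN v) (hα.1 v i)) hreal
  have hc : (m : ℂ) = ((m : ℝ) : ℂ) := by push_cast; rfl
  have hl := loc_al (N := fun v : HeightOneSpectrum (𝓞 k) => q v) (β := α) hN hc
  have H := rcon E hl hc rfl hF.1 hF.2
  have h0 := an_all E hl hc rfl hF.1 hF.2 0 le_rfl
  rw [Complex.ofReal_zero] at h0
  obtain ⟨μ, l, hA⟩ := exists_lead E H h0
  refine ⟨fun ρ' Y => E.finS _, μ, l, (lead_iff h0 μ l).2 hA, fun t ht ρ₀ h => ?_⟩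
  have hZ := zf_iff E hl hc rfl ρ₀
  have hQ : ∀ r : ℕ, Tendsto (fun Y : ℝ => (r : ℝ) * Real.log (Real.log Y) -
      r * Real.log (Real.log Y)) atTop (𝓝 0) := fun r => by
    simp only [sub_self]
    exact tendsto_const_nhds
  simp only [S_eq]
  refine ⟨?_, fun r => ?_, fun r => ?_, fun r => ?_, fun r B hB => ?_, fun r B hB => ?_⟩
  · have h1 := cont_slow E hreal H hA h ht
    rw [← hZ] at h1
    exact h1
  · have h1 := order_one E hreal H hA h ht r
    rw [← hZ] at h1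
    refine Iff.trans ?_ h1.symm
    rw [Nat.cast_le]
    exact Iff.rfl
  · have h1 := rank_le E hreal H hA h ht (hQ r)
    rw [← hZ] at h1
    exact h1
  · have h1 := rank_eq E hreal H hA h ht (hQ r)
    rw [← hZ] at h1
    exact h1
  · have h1 := coeff_one E hreal H hA h ht r hB
    rw [← hZ] at h1
    exact h1.symm
  · have h1 := coeff_eq E hreal H hA h ht (hQ r) hB
    have h3 : ∀ ρ : ℝ, -0 - Real.log B + r * Real.eulerMascheroniConstant / ρ =
        r * Real.eulerMascheroniConstant / ρ - Real.log B := fun ρ => by ring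
    simp only [h3] at h1
    rw [← hZ] at h1
    exact h1

end Pool.Agent.Results.MP_b8021b_nt.OrderFromOneSidedBounds
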