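import Pool.Agent.X309.RM1

/-!
# The order of the `L`-function of the conjecture of Beilinson and Bloch as a limit of traces

`K` is any number field. Let `α_{v,1}, …, α_{v,d}` be, for each finite place `v`, the roots of the
local factor of an `L`-function of odd weight `2m - 1`:

`L(s) = ∏_v ∏_i (1 - α_{v,i} q_v^{-s})⁻¹`,  `|α_{v,i}| ≤ q_v^{m - 1/2}`,  `∑_i α_{v,i}^k ∈ ℝ`.

For `V = H^{2m-1}(X)`, `X` smooth projective over `K`, the `α_{v,i}` are the eigenvalues of the geometric
Frobenius on `V^{I_v}` (and zeros, to have `d` of them). The bound is the theorem of Deligne for the `v` of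
good reduction; the power sums are the traces `Tr(Frob_v^k | V)`, integers for these `v`. (At the other
`v` both are the usual expectations, which are theorems for curves, abelian varieties, surfaces,
complete intersections, …; or one omits the factors of these `v`, `α_v = 0`.)

The only other hypothesis is that `L` has a continuation `F` which is meromorphic at the real points
of `[m, m + 1/2]`. There is no functional equation and no condition on the zeros of `F`.

For real `γ > π / 2` and `T > 0` put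

`S_γ(T) = ∑_v ∑_{k ≥ 1} - Tr(Frob_v^k | V) q_v^{i k γ / T} / (k q_v^{m k} Γ(1 + k log q_v / T))`,

an absolutely convergent series.

Theorem. Let `ρ` be the order of `F` at `m` and `l` its leading coefficient. Then `l` is real and

`S_γ(T) = ρ (log T - Λ_γ) - log |l| + π i e + O(1 / T)`,

where `e` is the number of real zeros `> m` minus the number of real poles `> m` of `F`, and
`Λ_γ = ∫_0^∞ (e^{-t} - e^{iγt} / Γ(1 + t)) dt / t`. Consequently, for all integers `r`:

* `ord_{s=m} L(s) = r` if and only if `Re S_γ(T) / log T → r`.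

So (ii) of the conjecture of Beilinson and Bloch for `X` and `m` is (once there is a continuation to
the segment) equivalent to a statement on the traces of Frobenius alone:
`Re S_γ(T) / log T → rank CH^m(X)_hom`. And the order is `r` and the leading coefficient is `B` if and
only if `exp S_γ(T) / T^r → exp(- r Λ_γ) / B`.

Proof: `e^{iγt} / Γ(1 + t)` is a contour integral of `exp (exp z) e^{-t (z - iγ)}` along the boundary of a
half strip; for `γ > π / 2` the part of the contour where `exp (exp z)` is not extremely small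
remains below the real axis, on which the zeros and poles of `F` are (the thin region below
`[m, m + 1/2]` is free of them for large `T`). See `Pool.Agent.W187.UR`, `Pool.Agent.W189.LC` and, for
Euler products of arbitrary degree, `Pool.Agent.X309.RM1`.
-/

set_option autoImplicit false

open IsDedekindDomain NumberField Filter Topology

namespace Pool.Agent.Results.MP_b8021b_nt.OrderFromTraces

variable {K : Type} [Field K] [NumberField K] {d : ℕ}

/-- `q_v`, the number of elements of the residue field -/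
noncomputable def q (v : HeightOneSpectrum (𝓞 K)) : ℝ := (Ideal.absNorm v.asIdeal : ℝ)

/-- local roots of weight `≤ 2m - 1` whose power sums (traces of Frobenius) are real -/
structure LocalRoots (m : ℕ) (α : HeightOneSpectrum (𝓞 K) → Fin d → ℂ) : Prop where
  le : ∀ v i, ‖α v i‖ ≤ q v ^ ((m : ℝ) - 1 / 2)
  real : ∀ v (k : ℕ), (∑ i, α v i ^ k).im = 0

/-- `F` is a continuation of `∏_v ∏_i (1 - α_{v,i} q_v^{-s})⁻¹` from `Re s > m + 1/2` along the real axis
to `s = m`, which is meromorphic at every real point of `[m, m + 1/2]`. -/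
def IsContinuation (m : ℕ) (α : HeightOneSpectrum (𝓞 K) → Fin d → ℂ) (F : ℂ → ℂ) : Prop :=
  (∀ x : ℝ, (m : ℝ) ≤ x → x ≤ (m : ℝ) + 1 / 2 → MeromorphicAt F (x : ℂ)) ∧
  ∀ s : ℂ, (m : ℝ) + 1 / 2 < s.re →
    HasProd (fun v : HeightOneSpectrum (𝓞 K) => ∏ i, (1 - α v i * (q v : ℂ) ^ (-s))⁻¹) (F s)

/-- The term of `v` and `k = x.2 + 1`:
`- (∑_i α_{v,i}^k) q_v ^ (i k γ / T) / (k q_v ^ (m k) Γ(1 + k log q_v / T))`. -/
noncomputable def term (m : ℕ) (α : HeightOneSpectrum (𝓞 K) → Fin d → ℂ) (γ T : ℝ)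
    (x : HeightOneSpectrum (𝓞 K) × ℕ) : ℂ :=
  -(∑ i, α x.1 i ^ (x.2 + 1)) *
    Complex.exp (γ * ((x.2 + 1) * Real.log (q x.1) / T) * Complex.I) /
      (((x.2 + 1) * q x.1 ^ (m * (x.2 + 1)) *
        Real.Gamma (1 + (x.2 + 1) * Real.log (q x.1) / T) : ℝ) : ℂ)

/-- `S_γ(T)` -/
noncomputable def S (m : ℕ) (α : HeightOneSpectrum (𝓞 K) → Fin d → ℂ) (γ T : ℝ) : ℂ :=
  ∑' x, term m α γ T x

/-- `Λ_γ = ∫_0^∞ (e^{-t} - e^{iγt} / Γ(1 + t)) dt / t` -/
noncomputable def Lambda (γ : ℝ) : ℂ := ∫ t in Set.Ioi (0 : ℝ),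
  (Complex.exp (-(t : ℂ)) - Complex.exp ((γ * t : ℝ) * Complex.I) * ((Real.Gamma (1 + t))⁻¹ : ℝ)) / t

/-- the number of the real zeros `> m` minus the number of the real poles `> m`, with
multiplicities -/
noncomputable def excess (m : ℕ) (F : ℂ → ℂ) : ℤ :=
  ∑ᶠ σ ∈ Set.Ioi (m : ℝ), (meromorphicOrderAt F (σ : ℂ)).untop₀

theorem two_le_q (v : HeightOneSpectrum (𝓞 K)) : 2 ≤ q v := by
  have := Pool.Agent.H921R2.TatePole.two_le_nm v
  show (2 : ℝ) ≤ ((Pool.Agent.H921R2.TatePole.nm v : ℕ) : ℝ)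
  exact_mod_cast this

theorem q_pos (v : HeightOneSpectrum (𝓞 K)) : 0 < q v := by
  linarith [two_le_q v]

/-- the normalised roots -/
theorem gs {m : ℕ} {α : HeightOneSpectrum (𝓞 K) → Fin d → ℂ} (h : LocalRoots m α) :
    Pool.Agent.X309.RM.GS (q (K := K)) (fun v i => α v i / ((q v ^ m : ℝ) : ℂ)) where
  cnt := Pool.Agent.W189.NF.countable_primes
  two_le := two_le_q
  sum := fun σ hσ => Pool.Agent.H921R2.TatePole.nm_summable hσ
  le := fun v i => by
    have h0 := q_pos v
    have h1 := h.le v i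
    have h2 : 0 < q v ^ m := pow_pos h0 _
    rw [norm_div, Complex.norm_real, Real.norm_eq_abs, abs_of_pos h2, div_le_iff₀ h2]
    refine h1.trans (le_of_eq ?_)
    rw [← Real.rpow_natCast, ← Real.rpow_add h0]
    congr 1
    ring
  real := fun v k => by
    simp only [div_pow]
    rw [← Finset.sum_div, ← Complex.ofReal_pow]
    have e : (∑ i, α v i ^ k) = (((∑ i, α v i ^ k).re : ℝ) : ℂ) := by
      apply Complex.ext
      · simp
      · rw [h.real v k]; simp
    rw [e, ← Complex.ofReal_div, Complex.ofReal_im]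

theorem term_eq (m : ℕ) (α : HeightOneSpectrum (𝓞 K) → Fin d → ℂ) (γ T : ℝ)
    (x : HeightOneSpectrum (𝓞 K) × ℕ) :
    term m α γ T x =
      Pool.Agent.X309.RM.rT (q (K := K)) (fun v i => α v i / ((q v ^ m : ℝ) : ℂ)) γ T x := by
  have h0 : ((q x.1 : ℝ) : ℂ) ≠ 0 := by exact_mod_cast (q_pos x.1).ne'
  unfold term Pool.Agent.X309.RM.rT Pool.Agent.X309.RM.lam
  simp only [div_pow]
  rw [← Finset.sum_div]
  push_cast
  rw [← pow_mul]
  have h1 : ((q x.1 : ℝ) : ℂ) ^ (m * (x.2 + 1)) ≠ 0 := pow_ne_zero _ h0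
  simp only [div_eq_mul_inv, mul_inv]
  ring

theorem S_eq (m : ℕ) (α : HeightOneSpectrum (𝓞 K) → Fin d → ℂ) (γ T : ℝ) :
    S m α γ T =
      Pool.Agent.X309.RM.rS (q (K := K)) (fun v i => α v i / ((q v ^ m : ℝ) : ℂ)) γ T :=
  tsum_congr fun x => term_eq m α γ T x

theorem order_shift (m : ℕ) (F : ℂ → ℂ) (x : ℝ) :
    meromorphicOrderAt (fun w => F (m + w)) (x : ℂ) = meromorphicOrderAt F ((m + x : ℝ) : ℂ) := by
  have h1 : (fun w : ℂ => F (m + w)) = F ∘ (· + (m : ℂ)) := by
    funext w; simp [add_comm]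
  rw [h1, meromorphicOrderAt_comp_add_const_eq_meromorphicOrderAt]
  push_cast
  rw [add_comm]

theorem order_shift0 (m : ℕ) (F : ℂ → ℂ) :
    meromorphicOrderAt (fun w => F (m + w)) 0 = meromorphicOrderAt F m := by
  have := order_shift m F 0
  simpa using this

theorem coeff_shift0 (m : ℕ) (F : ℂ → ℂ) :
    meromorphicTrailingCoeffAt (fun w => F (m + w)) 0 = meromorphicTrailingCoeffAt F m := by
  have h1 : (fun w : ℂ => F (m + w)) = F ∘ (· + (m : ℂ)) := by
    funext w; simp [add_comm]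
  rw [h1, meromorphicTrailingCoeffAt_comp_add_const_eq_meromorphicTrailingCoeffAt]
  simp

theorem excess_eq (m : ℕ) (F : ℂ → ℂ) :
    excess m F = Pool.Agent.X309.RM.exc (fun w => F (m + w)) := by
  unfold excess Pool.Agent.X309.RM.exc
  refine (finsum_mem_eq_of_bijOn (fun x => (m : ℝ) + x) ?_ ?_).symm
  · refine ⟨?_, ?_, ?_⟩
    · intro x hx
      rw [Set.mem_Ioi] at hx ⊢
      linarith
    · intro x _ y _ h
      simpa using h
    · intro y hy
      rw [Set.mem_Ioi] at hy
      exact ⟨y - m, by rw [Set.mem_Ioi]; linarith, by ring⟩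
  · intro x _
    rw [order_shift]

/-- **The order of an `L`-function of weight `2m - 1` at `m` is a limit of sums of traces of
Frobenius.** -/
theorem result (K : Type) [Field K] [NumberField K] (m d : ℕ)
    (α : HeightOneSpectrum (𝓞 K) → Fin d → ℂ) (hα : LocalRoots m α)
    (F : ℂ → ℂ) (hF : IsContinuation m α F) (γ : ℝ) (hγ : Real.pi / 2 < γ) :
    (∀ T : ℝ, 0 < T → Summable fun x => ‖term m α γ T x‖) ∧
    MeasureTheory.IntegrableOn (fun t : ℝ => (Complex.exp (-(t : ℂ)) -
      Complex.exp ((γ * t : ℝ) * Complex.I) * ((Real.Gamma (1 + t))⁻¹ : ℝ)) / t)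
      (Set.Ioi (0 : ℝ)) ∧
    {σ : ℝ | (m : ℝ) < σ ∧ meromorphicOrderAt F (σ : ℂ) ≠ 0}.Finite ∧
    (∃ (ρ : ℤ) (l : ℝ), meromorphicOrderAt F m = ρ ∧ meromorphicTrailingCoeffAt F m = l ∧ l ≠ 0 ∧
      (fun T : ℝ => S m α γ T - (ρ * (Real.log T - Lambda γ) - Real.log |l| +
        Real.pi * excess m F * Complex.I)) =O[atTop] (fun T : ℝ => 1 / T)) ∧
    (∀ r : ℤ, meromorphicOrderAt F m = (r : WithTop ℤ) ↔
      Tendsto (fun T : ℝ => (S m α γ T).re / Real.log T) atTop (𝓝 (r : ℝ))) ∧
    ∀ (r : ℤ) (B : ℝ), B ≠ 0 →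
      ((meromorphicOrderAt F m = (r : WithTop ℤ) ∧ meromorphicTrailingCoeffAt F m = B) ↔
        Tendsto (fun T : ℝ => Complex.exp (S m α γ T) / (T : ℂ) ^ r) atTop
          (𝓝 (Complex.exp (-(r * Lambda γ)) / B))) := by
  set β : HeightOneSpectrum (𝓞 K) → Fin d → ℂ := fun v i => α v i / ((q v ^ m : ℝ) : ℂ) with hβ
  set Φ : ℂ → ℂ := fun w => F (m + w) with hΦ
  have G : Pool.Agent.X309.RM.GS (q (K := K)) β := gs hα
  have hprod : ∀ w : ℂ, 1 / 2 < w.re →
      HasProd (Pool.Agent.X309.RM.fac (q (K := K)) β w) (Φ w) := by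
    intro w hw
    have h1 := hF.2 (m + w) (by
      rw [Complex.add_re, Complex.natCast_re]
      linarith)
    have e : Pool.Agent.X309.RM.fac (q (K := K)) β w =
        fun v => ∏ i, (1 - α v i * (q v : ℂ) ^ (-((m : ℂ) + w)))⁻¹ := by
      funext v
      unfold Pool.Agent.X309.RM.fac
      refine Finset.prod_congr rfl fun i _ => ?_
      have h0 : (q v : ℂ) ≠ 0 := by exact_mod_cast (q_pos v).ne'
      have h2 : (q v : ℂ) ^ (-((m : ℂ) + w)) =
          (((q v ^ m : ℝ) : ℂ))⁻¹ * Complex.exp (-(w * Real.log (q v))) := by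
        rw [neg_add, Complex.cpow_add _ _ h0, Complex.cpow_neg, Complex.cpow_natCast,
          Complex.cpow_def_of_ne_zero h0, ← Complex.ofReal_log (q_pos v).le]
        push_cast
        congr 2
        ring
      rw [h2, hβ]
      simp only
      rw [div_mul_eq_mul_div, div_eq_mul_inv]
      congr 2
      ring
    rw [e]
    exact h1
  have hmer : ∀ x : ℝ, 0 ≤ x → x ≤ 1 / 2 → MeromorphicAt Φ (x : ℂ) := by
    intro x h0 h1
    have h2 := hF.1 (m + x) (by linarith) (by linarith)
    have h3 : AnalyticAt ℂ (fun w : ℂ => (m : ℂ) + w) (x : ℂ) := by fun_prop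
    have h4 : MeromorphicAt F ((fun w : ℂ => (m : ℂ) + w) (x : ℂ)) := by
      have : ((m : ℂ) + (x : ℂ)) = ((m + x : ℝ) : ℂ) := by push_cast; ring
      simp only
      rw [this]
      exact h2
    exact h4.comp_analyticAt h3
  have hS : ∀ T : ℝ, S m α γ T = Pool.Agent.X309.RM.rS (q (K := K)) β γ T := fun T => S_eq m α γ T
  have hexc : excess m F = Pool.Agent.X309.RM.exc Φ := excess_eq m F
  refine ⟨fun T hT => ?_, Pool.Agent.W351.UR.cq_int γ, ?_, ?_, ?_, ?_⟩
  · refine (G.rT_summable γ hT).congr fun x => ?_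
    rw [term_eq]
  · refine ((G.finite_real hprod hmer).image fun x => (m : ℝ) + x).subset ?_
    rintro σ ⟨hσ1, hσ⟩
    refine ⟨σ - m, ⟨by linarith, ?_⟩, by ring⟩
    rw [hΦ, order_shift]
    have e : (m : ℝ) + (σ - m) = σ := by ring
    rw [e]
    exact hσ
  · obtain ⟨ρ, l, h1, h2, h3, h4, -⟩ := G.rot hprod hmer hγ
    refine ⟨ρ, l, ?_, ?_, h3, ?_⟩
    · rw [← order_shift0]; exact h1
    · rw [← coeff_shift0]; exact h2
    · refine h4.congr_left fun T => ?_
      rw [hS, hexc]
      rfl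
  · intro r
    rw [← order_shift0]
    simp only [hS]
    exact G.rot_lim hprod hmer hγ r
  · intro r B hB
    rw [← order_shift0, ← coeff_shift0]
    simp only [hS]
    exact G.rot_iff hprod hmer hγ r hB

end Pool.Agent.Results.MP_b8021b_nt.OrderFromTraces
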